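import Pool.Agent.Helper42.PW.Goals3
import Pool.Agent.Helper59.PPB.BTRV

/-!
# Project W (MP_fc6b1e_nt), packet W-W_TRV: the abstract lifting of the twisted Selmer group with
norm conditions above `p`
-/

set_option autoImplicit false

namespace Pool.Agent.Helper82.PW

open NumberField Polynomial Module IsDedekindDomain Pool.Agent.Helper51.SigLeo
open Pool.Agent.Helper51.RP Pool.Agent.Helper42.PW
open Pool.Agent.Helper77.RL (Sqr LData SplitAt up act_map act_lift lift)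
open Pool.Agent.Helper40.RD (bel_of_above ordW)
open Pool.Agent.Helper49.RL (tame_desc val_eq)
open Pool.Agent.Helper90.RP (exists_pull loc_pow loc_one loc_inv loc_mul loc_delta)
open Pool.Agent.Helper48.PPO (locAt_mul locAt_pow locAt_one locAt_inv)
open Pool.Agent.Helper9.RL (rs_pow pol_rs eq_of_agree ext_pow comm_rs above_above)
open Pool.Agent.Helper59.PPB (exists_pull_ring locAt_ring)

section loc

variable {p : ℕ} [hp : Fact p.Prime] {F : Type} [Field F] [NumberField F]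
  {W : HeightOneSpectrum (𝓞 F)} {β : F}

theorem locW_mul (hG : N_GRP) (hβ : β ≠ 0) {x y : Fˣ} (hx : LocW p W β (x : F))
    (hy : LocW p W β (y : F)) : LocW p W β ((x * y : Fˣ) : F) := by
  obtain ⟨-, -, -, -, -, -, h7⟩ := hG p F W
  obtain ⟨m1, -, -, -, -⟩ := h7 β hβ
  refine ⟨fun hv => locAt_mul (hx.1 hv) (hy.1 hv), fun hv => ⟨?_, fun hpw => ?_⟩⟩
  · rw [Units.val_mul]
    exact m1 _ _ (hx.2 hv).1 (hy.2 hv).1
  · rw [Units.val_mul, Pool.Agent.Helper49.RL.ordv_mul W x.ne_zero y.ne_zero]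
    exact dvd_add ((hx.2 hv).2 hpw) ((hy.2 hv).2 hpw)

theorem locW_pow (hG : N_GRP) (hβ : β ≠ 0) (y : Fˣ) : LocW p W β ((y ^ p : Fˣ) : F) := by
  obtain ⟨-, -, -, -, -, -, h7⟩ := hG p F W
  obtain ⟨-, -, m3, -, -⟩ := h7 β hβ
  refine ⟨fun _ => locAt_pow y, fun _ => ⟨?_, fun _ => ?_⟩⟩
  · rw [Units.val_pow_eq_pow_val]
    exact m3 _ y.ne_zero
  · rw [Units.val_pow_eq_pow_val, Pool.Agent.Helper49.RL.ordv_pow]
    exact dvd_mul_right _ _

theorem locW_one (hG : N_GRP) (hβ : β ≠ 0) : LocW p W β ((1 : Fˣ) : F) := by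
  have h := locW_pow (p := p) (W := W) hG hβ (1 : Fˣ)
  rwa [one_pow] at h

theorem locW_inv (hG : N_GRP) (hβ : β ≠ 0) {x : Fˣ} (hx : LocW p W β (x : F)) :
    LocW p W β ((x⁻¹ : Fˣ) : F) := by
  obtain ⟨-, -, -, -, -, -, h7⟩ := hG p F W
  obtain ⟨-, m2, -, -, -⟩ := h7 β hβ
  refine ⟨fun hv => locAt_inv hp.out.pos hβ (hx.1 hv), fun hv => ⟨?_, fun hpw => ?_⟩⟩
  · rw [Units.val_inv_eq_inv_val]
    exact m2 _ (hx.2 hv).1
  · have h1 := (hx.2 hv).2 hpw
    have h2 : ordv W (((x⁻¹ : Fˣ) : F)) = - ordv W (x : F) := by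
      have h3 := Pool.Agent.Helper49.RL.ordv_mul W x.ne_zero (x⁻¹).ne_zero
      rw [Units.mul_inv] at h3
      have h4 : ordv W (1 : F) = 0 := by
        unfold ordv
        simp
      rw [h4] at h3
      linarith
    rw [h2]
    exact (dvd_neg).2 h1

/-- Transport of the local conditions. -/
theorem locW_ring (hG : N_GRP) (hT : N_TRN) {v : HeightOneSpectrum (𝓞 F)} (f : F ≃+* F)
    (hw : ∀ y : F, v.valuation F (f y) = W.valuation F y) {c x : F} (hβ : β ≠ 0)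
    (ha : f β = β * c ^ p) (hx : LocW p W β x) : LocW p v β (f x) := by
  have hp0 : p ≠ 0 := hp.out.ne_zero
  have hc0 : c ≠ 0 := by
    rintro rfl
    rw [zero_pow hp0, mul_zero] at ha
    exact hβ ((map_eq_zero_iff f f.injective).1 ha)
  have hval : v.valuation F (p : F) = W.valuation F (p : F) := by
    have e := hw (p : F)
    rwa [map_natCast] at e
  obtain ⟨t1, t2, -⟩ := hT p F F f W v hw β x
  obtain ⟨-, -, -, -, -, -, h7⟩ := hG p F v
  obtain ⟨-, -, -, -, h8⟩ := h7 β hβ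
  obtain ⟨h9, h10⟩ := h8 1 c (Nat.coprime_one_left p) hc0
  rw [pow_one, ← ha] at h9 h10
  refine ⟨fun hv => ?_, fun hv => ⟨?_, fun hpw => ?_⟩⟩
  · exact locAt_ring hp0 f hw hβ ha (hx.1 (by rw [← hval]; exact hv))
  · exact (h9 _).1 (t2.2 (hx.2 (by rw [← hval]; exact hv)).1)
  · have h12 := (hx.2 (by rw [← hval]; exact hv)).2 (t1.1 (h10.2 hpw))
    unfold ordv at h12 ⊢
    rw [hw]
    exact h12

end loc

section main

variable {p : ℕ} [hp : Fact p.Prime] {k : Type} [NormedField k] [IsUltrametricDist k]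
  (Lg : IwasawaLog p k)
  {K M M' M₂' : Type} [Field K] [Field M] [Field M'] [Field M₂'] [NumberField M₂'] [Algebra K M']
  [Algebra M M'] [Algebra M' M₂']

/-- The Selmer group over `M'`. -/
theorem sub_exists (hG : N_GRP) (hT : N_TRN) (δ₁ : M' ≃ₐ[K] M')
    (hcomm : ∀ (g : M' ≃ₐ[M] M') (y : M'), g (δ₁ y) = δ₁ (g y))
    (P : (ZMod p)[X]) (T₁ : Set (M →+* k)) (β : M₂') (hβ : β ≠ 0)
    (hst : ∀ g : M' ≃ₐ[M] M', ∃ (f : M₂' ≃+* M₂') (c : M₂'),
      (∀ x : M', f (algebraMap M' M₂' x) = algebraMap M' M₂' (g x)) ∧ f β = β * c ^ p) :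
    ∃ V : Subgroup M'ˣ, (∀ x, x ∈ V ↔ SelW Lg (above T₁ : Set (M' →+* k)) P δ₁ β x) ∧
      (∀ x, Pw p x → x ∈ V) ∧
      ∀ (g : M' ≃ₐ[M] M'), ∀ x ∈ V, Units.map ((g : M' →+* M') : M' →* M') x ∈ V := by
  refine ⟨{ carrier := {x | SelW Lg (above T₁ : Set (M' →+* k)) P δ₁ β x}
            one_mem' := ?_
            mul_mem' := ?_
            inv_mem' := ?_ }, fun x ↦ Iff.rfl, ?_, ?_⟩
  · rintro x y ⟨hx0, hx1, hx2⟩ ⟨hy0, hy1, hy2⟩
    refine ⟨?_, fun W => ?_, loc_mul Lg hx2 hy2⟩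
    · obtain ⟨a, ha⟩ := hx0
      obtain ⟨b, hb⟩ := hy0
      exact ⟨a * b, by rw [map_mul, ha, hb, mul_pow]⟩
    · have h := locW_mul hG hβ (x := Units.map (algebraMap M' M₂' : M' →* M₂') x)
        (y := Units.map (algebraMap M' M₂' : M' →* M₂') y) (hx1 W) (hy1 W)
      rw [← map_mul] at h
      exact h
  · refine ⟨⟨1, by rw [map_one, one_pow]⟩, fun W => ?_, loc_one Lg⟩
    have h := locW_one (p := p) (W := W) hG hβ
    simpa using h
  · rintro x ⟨hx0, hx1, hx2⟩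
    refine ⟨?_, fun W => ?_, loc_inv Lg hx2⟩
    · obtain ⟨a, ha⟩ := hx0
      exact ⟨a⁻¹, by rw [map_inv, ha, inv_pow]⟩
    · have h := locW_inv hG hβ (x := Units.map (algebraMap M' M₂' : M' →* M₂') x) (hx1 W)
      rw [← map_inv] at h
      exact h
  · rintro x ⟨y, rfl⟩
    refine ⟨⟨pol P δ₁ y, by rw [map_pow]⟩, fun W => ?_, loc_pow Lg y⟩
    have h := locW_pow (p := p) (W := W) hG hβ
      (Units.map (algebraMap M' M₂' : M' →* M₂') y)
    rw [← map_pow] at h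
    exact h
  · rintro g x ⟨hx0, hx1, hx2⟩
    refine ⟨?_, fun W => ?_, loc_delta Lg g hx2⟩
    · obtain ⟨a, ha⟩ := hx0
      refine ⟨Units.map ((g : M' →+* M') : M' →* M') a, ?_⟩
      have h1 := act_map (g : M' →+* M') δ₁ δ₁ (fun x ↦ hcomm g x) (lift P) x
      rw [act_lift, act_lift] at h1
      rw [← h1, ha, map_pow]
    · obtain ⟨f, c, hf1, hf2⟩ := hst g
      obtain ⟨W', hW'⟩ := exists_pull_ring f W
      have h := locW_ring hG hT f hW' hβ hf2 (hx1 W')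
      rw [hf1] at h
      exact h

end main

/-- **W_TRV** -/
theorem w_trv (h1 : N_GRP) (h2 : N_TRN) (h3 : N_CMP) : Pool.Agent.Helper42.PW.W_TRV := by
  intro p hp k _ _ _ hne Lg n m K M L M' M₂ M₂' _ _ _ _ _ _ _ _ _ _ _ _ _ _ _ _ _ _ _ _ _ _ _ _ _
    hS δ δL P hirr hpow hext hTor hnsp T hsplit α hα hst hC hM x hx
  by_contra hxp
  have hpp : p.Prime := hp.out
  have : FiniteDimensional K M' := Module.Finite.of_restrictScalars_finite ℚ K M'
  have : FiniteDimensional M M' := Module.Finite.of_restrictScalars_finite ℚ M M'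
  obtain ⟨hd1, hd2, hg1, hg2, hf⟩ := Pool.Agent.Helper30.RL.l_sqr p n K M L M' hS
  have := hg1
  set δ₁ : M' ≃ₐ[K] M' := AlgEquiv.restrictScalars K δL with hδ₁
  have hp1 : δ₁ ^ m = 1 := by
    refine hS.gen _ (fun x ↦ ?_) fun y ↦ ?_
    · rw [rs_pow, ext_pow δ δL hext, hpow]
      rfl
    · rw [rs_pow]
      exact AlgEquiv.commutes _ _
  have hLD : LData p m n δ δ₁ :=
    ⟨hg1, hd1, hext, hp1, fun g y => comm_rs hS δ δL hext g y⟩
  have hTor' : TorOK P δ₁ := hTor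
  have hα' : algebraMap M₂ M₂' α ≠ 0 := by
    intro h
    exact hα ((map_eq_zero_iff _ (algebraMap M₂ M₂').injective).1 h)
  obtain ⟨V, hV, hVp, hVg⟩ := sub_exists Lg (K := K) h1 h2 δ₁ hLD.comm P
    (above T : Set (M →+* k)) (algebraMap M₂ M₂' α) hα' hst
  have hxV : x ∈ V := by
    rw [hV]
    refine ⟨?_, hx.loc, ?_⟩
    · rw [pol_rs]
      exact hx.pol
    · rw [← above_above (L := L)]
      exact hx.sig
  obtain ⟨x', hx'V, hx'p, hx'g⟩ :=
    Pool.Agent.Helper48.RL.l_fix p M M' n hd1 V hVp hVg ⟨x, hxV, hxp⟩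
  obtain ⟨x₀, hx₀, hxx₀⟩ := Pool.Agent.Helper93.RL.l_des Pool.Agent.Helper11.RL.l_pol p K M M' m n
    δ δ₁ P hirr hLD hTor' x' ((hV x').1 hx'V).pol hx'g
  have hup : up x₀ ∈ V := by
    have h6 := V.div_mem hx'V (hVp _ hxx₀)
    rwa [div_div_cancel] at h6
  have hupS := (hV _).1 hup
  have hx₀0 : (x₀ : M) ≠ 0 := x₀.ne_zero
  have hcomm : algebraMap M' M₂' ((up x₀ : M'ˣ) : M') =
      algebraMap M₂ M₂' (algebraMap M M₂ (x₀ : M)) := by
    change algebraMap M' M₂' (algebraMap M M' (x₀ : M)) = _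
    rw [← IsScalarTower.algebraMap_apply M M' M₂', ← IsScalarTower.algebraMap_apply M M₂ M₂']
  have hsig : LocSig Lg (above T : Set (M →+* k)) x₀ := by
    refine Pool.Agent.Helper86.PPO.l_lsd p k hne Lg K M M' (AlgebraicClosure M') m n δ δ₁ P hirr
      hLD T (fun σ hσ => Or.inl fun τ' hτ' => hsplit τ' ?_) x₀ hx₀ hupS.sig
    rw [hτ']
    exact hσ
  have hSel : SelW Lg (above T : Set (M →+* k)) P δ α x₀ := by
    refine ⟨hx₀, fun W => ⟨fun hWp => ⟨fun hW => ?_, fun hW => ?_⟩, fun hWp => ?_⟩, hsig⟩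
    · rcases hC.dvd W hW with ⟨W', -, hord⟩ | ⟨w, hw, hfree⟩
      · have hWp' : W'.valuation M₂' (p : M₂') = 1 := by
          have h4 := val_eq W' W hord (p : M₂)
          rw [map_natCast] at h4
          rw [h4, hWp]
        have h5 := ((hupS.loc W').1 hWp').1 (by rw [hord]; exact hW)
        rw [hcomm, hord] at h5
        exact h5
      · have h5 := hnsp w hfree x₀ hx₀
        rw [ordW W, bel_of_above hw]
        exact Dvd.dvd.mul_left h5 _
    · obtain ⟨W', -, hord, hres⟩ := hC.tame W hW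
      have hWp' : W'.valuation M₂' (p : M₂') = 1 := by
        have h4 := val_eq W' W hord (p : M₂)
        rw [map_natCast] at h4
        rw [h4, hWp]
      obtain ⟨i, hi⟩ := ((hupS.loc W').1 hWp').2 (by rw [hord]; exact hW)
      refine ⟨i, tame_desc p W' W (val_eq W' W hord) hres _ hpp.ne_zero ?_⟩
      rw [hcomm] at hi
      rw [map_mul, map_pow, map_mul, map_pow, map_neg, map_one]
      exact hi
    · obtain ⟨W', -, hval, hden⟩ := hC.abp W hWp
      have hWp' : W'.valuation M₂' (p : M₂') < 1 := by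
        have h4 := hval (p : M₂)
        rw [map_natCast] at h4
        rw [h4]
        exact hWp
      obtain ⟨c1, c2⟩ := h3 p M₂ M₂' W W' hval hden α (algebraMap M M₂ (x₀ : M))
      obtain ⟨h5, h6⟩ := (hupS.loc W').2 hWp'
      rw [hcomm] at h5 h6
      refine ⟨c2.1 h5, fun hpw => ?_⟩
      have h7 := h6 (c1.2 hpw)
      unfold ordv at h7 ⊢
      rw [hval] at h7
      exact h7
  obtain ⟨y, hy⟩ := hM x₀ hSel
  apply hx'p
  obtain ⟨w, hw⟩ := hxx₀
  refine ⟨w * up y, ?_⟩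
  have h6 : up x₀ = (up y : M'ˣ) ^ p := by
    rw [hy]
    unfold up
    rw [map_pow]
  rw [mul_pow, ← h6, ← hw, div_mul_cancel]

end Pool.Agent.Helper82.PW
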